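import Pool.Agent.Helper27.NF.Fin

/-!
# Algebras all of whose proper subalgebras are nilpotent: operators of finite rank

`K` is a field of characteristic zero, for instance `ℚ`. Algebras are associative and not
necessarily unital. Let `A` be a counterexample: `dim A > 1`, all proper subalgebras of `A` are
nilpotent, and `A` is not nilpotent. Then every nonzero homomorphic image `C` of `A` (for instance
`C = A`) carries a nonzero operator `b ↦ ∑ p i * b * q i` of finite rank, and the elements killed by
all such operators of finite rank form a nilpotent ideal. Some nonzero finite-dimensional subspace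
of `C` is invariant under the whole centroid; so `C` is not an algebra over an extension field of
`K` of infinite degree.
-/

set_option autoImplicit false

namespace Pool.Agent.Results.MP_3938c6_al.FiniteRankOperators

/-- The operator `b ↦ ∑ p i * b * q i` of `C` has finite rank. -/
def FiniteRank (K : Type) {C : Type} [Field K] [NonUnitalRing C] [Module K C] {n : ℕ}
    (p q : Fin n → C) : Prop :=
  ∃ S : Submodule K C, FiniteDimensional K S ∧ ∀ b : C, ∑ i, p i * b * q i ∈ S

/-- The element `x` is killed by all operators `b ↦ ∑ p i * b * q i` of finite rank. -/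
def Killed (K : Type) {C : Type} [Field K] [NonUnitalRing C] [Module K C] (x : C) : Prop :=
  ∀ (n : ℕ) (p q : Fin n → C), FiniteRank K p q → ∑ i, p i * x * q i = 0

/-- Let `K` be a field of characteristic zero, `A` a `K`-algebra with `dim A > 1` all of whose
proper subalgebras are nilpotent, `A` not nilpotent, and `C` a nonzero homomorphic image of `A`.
Then (1) there is a nonzero operator `b ↦ ∑ p i * b * q i` of finite rank on `C`; (2) the elements
killed by all operators of this form of finite rank form a nilpotent set: for some `m` all products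
of `m + 1` of them are zero; (3) there is a nonzero finite-dimensional subspace `S` of `C` invariant
under all linear `t : C → C` with `t (a b) = t (a) b = a t (b)`; (4) if `C` is an algebra over a
field `L ⊇ K`, then `L` is of finite degree over `K`. -/
theorem result (K A C : Type) [Field K] [CharZero K]
    [NonUnitalRing A] [Module K A] [IsScalarTower K A A] [SMulCommClass K A A]
    [NonUnitalRing C] [Module K C] [IsScalarTower K C C] [SMulCommClass K C C] [Nontrivial C]
    (hdim : 1 < Module.rank K A)
    (hprop : ∀ B : NonUnitalSubalgebra K A, B ≠ ⊤ →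
      ∃ n : ℕ, ∀ a ∈ B, ∀ l : List A, (∀ x ∈ l, x ∈ B) → l.length = n →
        l.foldl (fun x y => x * y) a = 0)
    (hnil : ¬ ∃ n : ℕ, ∀ a : A, ∀ l : List A, l.length = n → l.foldl (fun x y => x * y) a = 0)
    (f : A →ₙₐ[K] C) (hf : Function.Surjective f) :
    (∃ (n : ℕ) (p q : Fin n → C), FiniteRank K p q ∧ ∃ b : C, ∑ i, p i * b * q i ≠ 0) ∧
    (∃ m : ℕ, ∀ c : C, Killed K c → ∀ l : List C, (∀ x ∈ l, Killed K x) → l.length = m →
      l.foldl (fun x y => x * y) c = 0) ∧
    (∃ S : Submodule K C, S ≠ ⊥ ∧ FiniteDimensional K S ∧ ∀ t : C →ₗ[K] C,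
      (∀ a b : C, t (a * b) = t a * b ∧ t (a * b) = a * t b) → ∀ x ∈ S, t x ∈ S) ∧
    ∀ (L : Type) [Field L] [Algebra K L] [Module L C] [IsScalarTower K L C]
      [IsScalarTower L C C] [SMulCommClass L C C], FiniteDimensional K L := by
  obtain ⟨h1, h2, h3⟩ := Pool.Agent.Helper27.NF.fin hdim hprop hnil f hf
  refine ⟨h1, ?_, h3, ?_⟩
  · obtain ⟨m, hm⟩ := h2
    exact ⟨m, fun c hc l hl hlen => hm c hc l hl hlen⟩
  · intro L _ _ _ _ _ _
    exact Pool.Agent.Helper27.NF.ext_fin h3

end Pool.Agent.Results.MP_3938c6_al.FiniteRankOperators
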